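import Pool.Agent.Helper71.CK.Goals

/-! Packet CK-GEOM (MP_d34459_al): algebra part of the module lemma. -/

set_option autoImplicit false

namespace Pool.Agent.Helper37.CK

open Pool.Agent.CK

private lemma gs_zero (p : ℤ) (f : ℤ →₀ ℤ) : gs 0 p f = 0 := by
  simp [gs]

private lemma gs_succ (R : ℕ) (p : ℤ) (f : ℤ →₀ ℤ) :
    gs (R + 1) p f = gs R p f + sh (R * p) f := by
  simp [gs, Finset.sum_range_succ]

private lemma gs_sub (R : ℕ) (p : ℤ) (f g : ℤ →₀ ℤ) :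
    gs R p (f - g) = gs R p f - gs R p g := by
  simp [gs, map_sub, Finset.sum_sub_distrib]

private lemma gs_sh (h : S_FS) (R : ℕ) (p s : ℤ) (f : ℤ →₀ ℤ) :
    gs R p (sh s f) = sh s (gs R p f) := by
  induction R with
  | zero => simp [gs_zero]
  | succ R ih =>
    rw [gs_succ, gs_succ, map_add, ih, h.2.2.1, h.2.2.1, add_comm (R * p) s]

private lemma gs_comm (h : S_FS) (R R' : ℕ) (p p' : ℤ) (f : ℤ →₀ ℤ) :
    gs R p (gs R' p' f) = gs R' p' (gs R p f) := by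
  induction R with
  | zero =>
    have : gs R' p' (0 : ℤ →₀ ℤ) = 0 := by simp [gs]
    rw [gs_zero, gs_zero, this]
  | succ R ih =>
    have hadd : ∀ a b : ℤ →₀ ℤ, gs R' p' (a + b) = gs R' p' a + gs R' p' b := by
      intro a b
      simp [gs, map_add, Finset.sum_add_distrib]
    rw [gs_succ, gs_succ, hadd, ih, gs_sh h]

private lemma gs_tel (h : S_FS) (R : ℕ) (p : ℤ) (f : ℤ →₀ ℤ) :
    gs R p (f - sh p f) = f - sh (R * p) f := by
  induction R with
  | zero => rw [gs_zero]; simp [h.2.1]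
  | succ R ih =>
    rw [gs_succ, ih, map_sub, h.2.2.1]
    have : ((R : ℤ) * p + p) = ((R + 1 : ℕ) : ℤ) * p := by push_cast; ring
    rw [this]
    abel

private lemma swap (h : S_FS) (D K : ℕ) (q : ℤ) (e : ℕ → (ℤ →₀ ℤ))
    (he : ∀ j k : ℕ, 1 ≤ j → 1 ≤ k → j + k ≤ K →
      nrm (e (j + k) - e j - sh (j * q) (e k)) ≤ D)
    (j k : ℕ) (hj : 1 ≤ j) (hk : 1 ≤ k) (hjk : j + k ≤ K) :
    nrm ((e j - sh (k * q) (e j)) - (e k - sh (j * q) (e k))) ≤ 2 * D := by
  have h1 := he j k hj hk hjk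
  have h2 := he k j hk hj (by omega)
  have h3 := h.2.2.2.2.2.1 (e (k + j) - e k - sh (k * q) (e j))
    (e (j + k) - e j - sh (j * q) (e k))
  have h4 : (e (k + j) - e k - sh (k * q) (e j)) - (e (j + k) - e j - sh (j * q) (e k)) =
      (e j - sh (k * q) (e j)) - (e k - sh (j * q) (e k)) := by
    rw [add_comm k j]; abel
  rw [h4] at h3
  omega

private lemma approx (h : S_FS) (D K : ℕ) (q : ℤ) (e : ℕ → (ℤ →₀ ℤ))
    (he : ∀ j k : ℕ, 1 ≤ j → 1 ≤ k → j + k ≤ K →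
      nrm (e (j + k) - e j - sh (j * q) (e k)) ≤ D) (m : ℕ) (hm : 1 ≤ m) (R : ℕ) :
    (R + 1) * m ≤ K → ∃ err : ℤ →₀ ℤ,
      e ((R + 1) * m) = gs (R + 1) (m * q) (e m) + err ∧ nrm err ≤ R * D := by
  induction R with
  | zero =>
    intro _
    refine ⟨0, ?_, ?_⟩
    · rw [gs_succ, gs_zero]
      simp [h.2.1]
    · simp [nrm]
  | succ R ih =>
    intro hK
    have hK' : (R + 1) * m + m ≤ K := by
      have : (R + 1 + 1) * m = (R + 1) * m + m := by ring
      omega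
    obtain ⟨err, h1, h2⟩ := ih (by omega)
    have h3 := he ((R + 1) * m) m (Nat.mul_pos (Nat.succ_pos R) hm) hm hK'
    refine ⟨err + (e ((R + 1) * m + m) - e ((R + 1) * m) -
      sh (((R + 1) * m : ℕ) * q) (e m)), ?_, ?_⟩
    · have h4 : (R + 1 + 1) * m = (R + 1) * m + m := by ring
      rw [h4, gs_succ (R + 1)]
      have h5 : ((R + 1 : ℕ) : ℤ) * (m * q) = ((((R + 1) * m : ℕ) : ℤ) * q) := by
        push_cast; ring
      rw [h5]
      have h6 : gs (R + 1) (m * q) (e m) = e ((R + 1) * m) - err := by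
        rw [h1]; abel
      rw [h6]
      abel
    · have h7 := h.2.2.2.2.1 err (e ((R + 1) * m + m) - e ((R + 1) * m) -
        sh (((R + 1) * m : ℕ) * q) (e m))
      have h8 : (R + 1) * D = R * D + D := by ring
      omega

theorem geom (h : S_FS) : S_GEOM := by
  intro D i q e hD hi he
  have c1 : ((i + 1 : ℕ) : ℤ) * q = ((i : ℤ) + 1) * q := by push_cast; ring
  constructor
  · have hb : i + (i + 1) ≤ 4 * D * (2 * i + 1) := by nlinarith
    have := swap h D _ q e he i (i + 1) hi (by omega) hb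
    rw [c1] at this
    exact this
  · obtain ⟨R, hR⟩ : ∃ R, 4 * D = R + 1 := ⟨4 * D - 1, by omega⟩
    have hb1 : (R + 1) * i ≤ 4 * D * (2 * i + 1) := by rw [← hR]; nlinarith
    have hb2 : (R + 1) * (i + 1) ≤ 4 * D * (2 * i + 1) := by rw [← hR]; nlinarith
    obtain ⟨r1, e1, n1⟩ := approx h D _ q e he i hi R hb1
    obtain ⟨r2, e2, n2⟩ := approx h D _ q e he (i + 1) (by omega) R hb2
    have hb3 : (R + 1) * i + (R + 1) * (i + 1) ≤ 4 * D * (2 * i + 1) := by
      rw [← hR]; nlinarith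
    have hs := swap h D _ q e he ((R + 1) * i) ((R + 1) * (i + 1))
      (Nat.mul_pos (Nat.succ_pos R) hi) (Nat.mul_pos (Nat.succ_pos R) (Nat.succ_pos i)) hb3
    rw [c1] at e2
    rw [hR]
    -- the identity
    have key : gs (R + 1) (i * q) (gs (R + 1) ((i + 1) * q)
        ((e i - sh ((i + 1) * q) (e i)) - (e (i + 1) - sh (i * q) (e (i + 1))))) =
        ((e ((R + 1) * i) - sh (((R + 1) * (i + 1) : ℕ) * q) (e ((R + 1) * i))) -
          (e ((R + 1) * (i + 1)) - sh (((R + 1) * i : ℕ) * q) (e ((R + 1) * (i + 1))))) -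
        (r1 - sh (((R + 1) * (i + 1) : ℕ) * q) r1) +
        (r2 - sh (((R + 1) * i : ℕ) * q) r2) := by
      have a1 : ((R + 1 : ℕ) : ℤ) * (((i : ℤ) + 1) * q) = (((R + 1) * (i + 1) : ℕ) : ℤ) * q := by
        push_cast; ring
      have a2 : ((R + 1 : ℕ) : ℤ) * ((i : ℤ) * q) = (((R + 1) * i : ℕ) : ℤ) * q := by
        push_cast; ring
      rw [gs_sub, gs_sub, gs_tel h, a1, gs_comm h (R + 1) (R + 1) (i * q) ((i + 1) * q)
        (e (i + 1) - sh (i * q) (e (i + 1))), gs_tel h, a2, gs_sub, gs_sh h, gs_sub, gs_sh h]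
      have b1 : gs (R + 1) (i * q) (e i) = e ((R + 1) * i) - r1 := by rw [e1]; abel
      have b2 : gs (R + 1) ((i + 1) * q) (e (i + 1)) = e ((R + 1) * (i + 1)) - r2 := by
        rw [e2]; abel
      rw [b1, b2, map_sub, map_sub]
      abel
    rw [key]
    have m1 := h.2.2.2.2.1 (((e ((R + 1) * i) - sh (((R + 1) * (i + 1) : ℕ) * q)
        (e ((R + 1) * i))) - (e ((R + 1) * (i + 1)) - sh (((R + 1) * i : ℕ) * q)
        (e ((R + 1) * (i + 1))))) - (r1 - sh (((R + 1) * (i + 1) : ℕ) * q) r1))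
        (r2 - sh (((R + 1) * i : ℕ) * q) r2)
    have m2 := h.2.2.2.2.2.1 ((e ((R + 1) * i) - sh (((R + 1) * (i + 1) : ℕ) * q)
        (e ((R + 1) * i))) - (e ((R + 1) * (i + 1)) - sh (((R + 1) * i : ℕ) * q)
        (e ((R + 1) * (i + 1))))) (r1 - sh (((R + 1) * (i + 1) : ℕ) * q) r1)
    have m3 := h.2.2.2.2.2.1 r1 (sh (((R + 1) * (i + 1) : ℕ) * q) r1)
    have m4 := h.2.2.2.2.2.1 r2 (sh (((R + 1) * i : ℕ) * q) r2)
    rw [h.2.2.2.1] at m3 m4
    have m5 : (R + 1) ^ 2 = 4 * D * (R + 1) := by rw [hR]; ring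
    have m6 : 4 * D * (R + 1) = 4 * (R * D) + 4 * D := by ring
    omega

end Pool.Agent.Helper37.CK
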